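import Pool.Agent.N190.CB.Defs

/-!
# Künneth projectors of generic hyperplane sections of products: definitions
-/

set_option autoImplicit false

open CategoryTheory AlgebraicGeometry

universe u v

namespace Pool.Agent.N190.GS2

section Alg

variable {K A : Type*} [Field K] [Ring A] [Algebra K A]

/-- Some operator of the set `S` sends `x * a` to `a` for all `a` in `U`. -/
def SendsBack (S : Set (Module.End K A)) (U : Submodule K A) (x : A) : Prop :=
  ∃ T ∈ S, ∀ a ∈ U, T (x * a) = a

/-- There are primitive classes different from zero in all degrees `b ≤ m`. -/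
def HasPrimitives (gr : ℕ → Submodule K A) (η : A) (m : ℕ) : Prop :=
  ∀ b ≤ m, ∃ p ∈ gr b, p ≠ 0 ∧ η ^ (m - b + 1) * p = 0

variable {K' A' : Type*} [Field K'] [Ring A'] [Algebra K' A']

/-- The map `ρ` preserves the degrees and the orientation, and the elements `ρ x` span. -/
structure IsSpanning (gr : ℕ → Submodule K A) (gr' : ℕ → Submodule K' A') (tr : A →ₗ[K] K)
    (tr' : A' →ₗ[K'] K') (σ : K →+* K') (ρ : A →+* A') : Prop where
  mem : ∀ i, ∀ x ∈ gr i, ρ x ∈ gr' i
  tr_apply : ∀ x, tr' (ρ x) = σ (tr x)
  span : Submodule.span K' (Set.range ρ) = ⊤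

end Alg

open Pool.Agent.H914 Pool.Agent.N190.CB VarClass Obj WeilCohomology

variable {k : Type u} [Field k] {𝒱 : VarClass k} {ops : CycleOps 𝒱}

/-- The operators on `H(V)` induced by the algebraic cycles of codimension `p` on `V × V`. -/
def cycleOps (W : WeilCohomology.{u, v} ops) (V : 𝒱.Obj) (p : ℕ) : Set (Module.End W.K (W.H V)) :=
  {T | ∃ z, (V.prod V).IsCyc p z ∧ W.corr (W.cl _ z) = T}

/-- Let `n = dim X` and let `ξ` be the class of `D`. For all `j ≤ n - 2` some algebraic cycle of
codimension `j + 1` on `X × X` sends `ξ ^ (n - 1 - j) · a` to `a` for all `a` in `H^j(X)`. -/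
def InvertsBelow (W : WeilCohomology.{u, v} ops) {X : 𝒱.Obj} (D : X.Cycles) : Prop :=
  ∀ j, j + 2 ≤ X.dim →
    SendsBack (cycleOps W X (j + 1)) (W.gr X j) (W.cl X D ^ (X.dim - 1 - j))

/-- The inverse of `ξ ^ (n - j) : H^j(X) → H^(2n - j)(X)` is algebraic for `1 ≤ j ≤ n - 2`. -/
def InverseUpTo (W : WeilCohomology.{u, v} ops) {X : 𝒱.Obj} (D : X.Cycles) : Prop :=
  ∀ j, 1 ≤ j → j + 2 ≤ X.dim → SendsBack (cycleOps W X j) (W.gr X j) (W.cl X D ^ (X.dim - j))

/-- The variety `Z₀` looks like a smooth specialization of `Z` (for example a smooth hyperplane section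
as a specialization of the generic one): `sp` and `sp₂` are the specialization maps for the
cohomology of `Z` and of `Z × Z`; they preserve the degrees, the orientation and the classes of
cycles of codimension `dim Z`, and the classes `sp x` span `H(Z₀)`. -/
structure Specialization {k' : Type u} [Field k'] {𝒱' : VarClass k'} {ops' : CycleOps 𝒱'}
    (W : WeilCohomology.{u, v} ops) (W' : WeilCohomology.{u, v} ops') (Z : 𝒱.Obj) (Z₀ : 𝒱'.Obj)
    where
  /-- the inclusion of the coefficient fields -/
  σ : W.K →+* W'.K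
  /-- the specialization of the classes on `Z` -/
  sp : W.H Z →+* W'.H Z₀
  /-- the specialization of the classes on `Z × Z` -/
  sp₂ : W.H (Z.prod Z) →+* W'.H (Z₀.prod Z₀)
  compatible : IsCompatible σ sp sp₂ (W.map (fst Z Z)) (W.map (snd Z Z)) (W'.map (fst Z₀ Z₀))
    (W'.map (snd Z₀ Z₀))
  spanning : IsSpanning (W.gr Z) (W'.gr Z₀) (W.tr Z) (W'.tr Z₀) σ sp
  cycles : Set.MapsTo sp₂ (algClasses W (Z.prod Z) Z.dim) (algClasses W' (Z₀.prod Z₀) Z₀.dim)

/-- The conjecture C holds for the generic hyperplane sections `Z` of `X × Q`, for the sum of the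
divisors `D` and `h`, and for all their specializations `Z₀`, for all varieties `Q` with a divisor
`h` which satisfies hard Lefschetz and the conjecture B. -/
def KunnethForSections (W : WeilCohomology.{u, v} ops) {X : 𝒱.Obj} (D : X.Cycles) : Prop :=
  ∀ (Q : 𝒱.Obj) (h : Q.Cycles), Q.IsCyc 1 h → HardLefschetz W Q h → LefschetzB W Q h →
    ∀ (T : Theory.{u, v}) (Z : T.𝒱.Obj),
      GenericSection W T.W (V := X.prod Q) (TH720.LB.sumDiv ops D h) Z →
        KunnethStd T.W Z ∧ ∀ (T₀ : Theory.{u, v}) (Z₀ : T₀.𝒱.Obj),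
          Specialization T.W T₀.W Z Z₀ → KunnethStd T₀.W Z₀

/-- One generic hyperplane section `Z` of `X × Q`, where `Q` is a variety of dimension `dim X - 2`
with a divisor `h` which satisfies hard Lefschetz and the conjecture B and with primitive classes in
all degrees (for example an abelian variety, or a product of curves of positive genus). It lives over
another field, with the theory `T`. -/
structure TestSection (W : WeilCohomology.{u, v} ops) {X : 𝒱.Obj} (D : X.Cycles) where
  /-- the auxiliary variety -/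
  Q : 𝒱.Obj
  /-- its divisor -/
  h : Q.Cycles
  /-- the theory -/
  T : Theory.{u, v}
  /-- the section -/
  Z : T.𝒱.Obj
  div : Q.IsCyc 1 h
  hard : HardLefschetz W Q h
  lef : LefschetzB W Q h
  dim : Q.dim + 2 = X.dim
  prim : HasPrimitives (W.gr Q) (W.cl Q h) Q.dim
  /-- it is the generic hyperplane section -/
  G : GenericSection W T.W (V := X.prod Q) (TH720.LB.sumDiv ops D h) Z

end Pool.Agent.N190.GS2
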