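import Pool.Agent.N190.GS2.Defs
import Pool.Agent.N190.GS.Page

/-!
# Specializations
-/

set_option autoImplicit false

open CategoryTheory AlgebraicGeometry Finset

universe u v

namespace Pool.Agent.N190.GS2

open Pool.Agent.H914 Pool.Agent.H447 Pool.Agent.N190.CB Pool.Agent.TH720.LB
  Pool.Agent.W534 VarClass Obj WeilCohomology

variable {k : Type u} [Field k] {𝒱 : VarClass k} {ops : CycleOps 𝒱}
  {k' : Type u} [Field k'] {𝒱' : VarClass k'} {ops' : CycleOps 𝒱'}
  {W : WeilCohomology.{u, v} ops} {W' : WeilCohomology.{u, v} ops'} {X Z : 𝒱.Obj} {Z₀ : 𝒱'.Obj}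
  {D : X.Cycles}

lemma corr_sp (S : Specialization W W' Z Z₀) (y : W.H (Z.prod Z)) (x : W.H Z) :
    W'.corr (S.sp₂ y) (S.sp x) = S.sp (W.corr y x) := by
  refine gr_induction (W.isInternal Z) (p := fun x =>
    W'.corr (S.sp₂ y) (S.sp x) = S.sp (W.corr y x)) ?_ ?_ x
  swap
  · intro a b ha hb
    rw [map_add, map_add, ha, hb, map_add, map_add]
  intro l x hx
  refine W.kunneth_induction (p := fun y =>
    W'.corr (S.sp₂ y) (S.sp x) = S.sp (W.corr y x)) ?_ ?_ y
  · intro a b ha hb
    rw [map_add, corr_add, corr_add, LinearMap.add_apply, LinearMap.add_apply, ha, hb, map_add]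
  intro i j a _ b hb
  rw [map_mul S.sp₂, S.compatible.fst, S.compatible.snd, corr_tmul _ (S.spanning.mem j b hb) (S.spanning.mem l x hx),
    corr_tmul _ hb hx, S.compatible.smul, ← map_mul S.sp, S.spanning.tr_apply, map_mul S.σ]
  congr 1
  rw [map_pow, map_neg, map_one]

/-- **The conjecture C is stable under specialization.** -/
theorem kunneth_specialize (S : Specialization W W' Z Z₀) (hK : KunnethStd W Z) :
    KunnethStd W' Z₀ := by
  intro i
  obtain ⟨P, hP, hPi⟩ := hK i
  obtain ⟨z, hz, hzP⟩ := S.cycles ⟨P, hP, rfl⟩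
  have key : W'.corr (W'.cl _ z) = proj (W'.isInternal Z₀) i := by
    apply LinearMap.ext
    intro b
    have hb : b ∈ Submodule.span W'.K (Set.range S.sp) := by
      rw [S.spanning.span]
      exact Submodule.mem_top
    induction hb using Submodule.span_induction with
    | mem x hx =>
      obtain ⟨x, rfl⟩ := hx
      refine gr_induction (W.isInternal Z) (p := fun x => W'.corr (W'.cl _ z) (S.sp x) =
        proj (W'.isInternal Z₀) i (S.sp x)) ?_ ?_ x
      · intro j x hx
        rw [hzP, corr_sp, hPi j x hx]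
        by_cases hj : j = i
        · rw [if_pos hj, proj_same _ (hj ▸ S.spanning.mem j x hx)]
        · rw [if_neg hj, map_zero, proj_ne _ (S.spanning.mem j x hx) hj]
      · intro a b ha hb
        rw [map_add, map_add, map_add, ha, hb]
    | zero => rw [map_zero, map_zero]
    | add x y _ _ hx hy => rw [map_add, map_add, hx, hy]
    | smul c x _ hx => rw [map_smul, map_smul, hx]
  refine ⟨z, hz, fun j a ha => ?_⟩
  rw [key]
  split_ifs with hj
  · subst hj; rw [proj_same _ ha]
  · rw [proj_ne _ ha hj]

lemma sections_iff : KunnethForSections W D ↔ GS.KunnethForSections W D :=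
  ⟨fun H Q h hh hQL hQB T Z G => (H Q h hh hQL hQB T Z G).1,
    fun H Q h hh hQL hQB T Z G => ⟨H Q h hh hQL hQB T Z G, fun _ _ S =>
      kunneth_specialize S (H Q h hh hQL hQB T Z G)⟩⟩

/-- The test section. -/
def TestSection.old (S : TestSection W D) : GS.TestSection W D where
  Q := S.Q
  h := S.h
  T := S.T
  Z := S.Z
  div := S.div
  hard := S.hard
  lef := S.lef
  dim := S.dim
  prim := S.prim
  G := S.G

/-- **One section decides.** -/
theorem one_section (hD : X.IsCyc 1 D) (S : TestSection W D) (hX : 3 ≤ X.dim) :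
    List.TFAE [KunnethStd S.T.W S.Z,
      KunnethStd W X ∧ SignStd S.T.W S.Z,
      KunnethStd W X ∧ InvertsBelow W D,
      KunnethStd W X ∧ KunnethForSections W D] := by
  rw [sections_iff]
  exact GS.one_section hD S.old hX

/-- **The conjecture B in the degrees `≤ dim X - 2` suffices.** -/
theorem kunneth_of_inverse (hD : X.IsCyc 1 D) (hHL : HardLefschetz W X D) (hK : KunnethStd W X)
    (hI : InverseUpTo W D) : KunnethForSections W D :=
  sections_iff.2 (GS.kunneth_of_inverse hD hHL hK hI)

end Pool.Agent.N190.GS2
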